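import Pool.Agent.H22.CQ.K1
import Pool.Agent.H10.CQ.Defs

/-!
# Project CQ, module K1: the data of a first case solution
-/

open Polynomial NumberField H9FC H45KC

namespace H10CQ

open Pool.Agent.H22.CQ

private theorem el_eq {p : ℕ} {Ω : Type*} [Field Ω] (hp : 2 ≤ p) (i : ℕ) (hi : i + 1 < p) (s : Ω) :
    el p i s = lg p i s := by
  rw [el, lg]
  have h1 : Finset.range p = insert 0 (Finset.Icc 1 (p - 1)) := by
    ext x
    simp only [Finset.mem_range, Finset.mem_insert, Finset.mem_Icc]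
    omega
  rw [h1, Finset.sum_insert (by simp), Nat.cast_zero, zero_pow (by omega), zero_mul, zero_add]

private theorem int_pow (p : ℕ) [Fact p.Prime] (Ω : Type*) [Field Ω] [CharP Ω p] (m : ℤ) :
    (m : Ω) ^ p = m := by
  have h1 : (m : ZMod p) ^ p = m := ZMod.pow_card _
  have h2 := congrArg (ZMod.castHom dvd_rfl Ω) h1
  rw [map_pow, map_intCast] at h2
  exact h2

theorem dat_of_sol (K : Type*) [Field K] [NumberField K] (p : ℕ) [Fact p.Prime] (hp : 5 ≤ p)
    (hn : Module.finrank ℚ K < p) (a b c : 𝓞 K) (h : FSol K p a b c)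
    (hfc : ∀ P : Ideal (𝓞 K), P.IsPrime → (p : 𝓞 K) ∈ P → a ∉ P ∧ b ∉ P ∧ c ∉ P)
    {Ω : Type*} [Field Ω] [CharP Ω p] {ψ : Fin (Module.finrank ℚ K) → (𝓞 K →+* Ω)}
    (hψ : IsRedFam ψ) : Dat p (fun k => -(ψ k b) / ψ k a) := by
  classical
  have hker : ∀ k, ψ k a ≠ 0 ∧ ψ k b ≠ 0 ∧ ψ k c ≠ 0 := by
    intro k
    have h1 := hfc (RingHom.ker (ψ k)) (RingHom.ker_isPrime _) (by
      rw [RingHom.mem_ker, map_natCast, CharP.cast_eq_zero])
    exact ⟨fun h0 => h1.1 h0, fun h0 => h1.2.1 h0, fun h0 => h1.2.2 h0⟩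
  have hab : ∀ k, ψ k a + ψ k b ≠ 0 := by
    intro k h0
    have h1 := fsol_hom h (ψ k)
    rw [h0, zero_add] at h1
    exact (hker k).2.2 h1
  have h1s : ∀ k, 1 - -(ψ k b) / ψ k a = (ψ k a + ψ k b) / ψ k a := by
    intro k
    have := (hker k).1
    field_simp
    ring
  refine ⟨?_, ?_, ?_, ?_, ?_⟩
  · intro k
    exact div_ne_zero (neg_ne_zero.2 (hker k).2.1) (hker k).1
  · intro k h0
    have h1 := h1s k
    rw [h0, sub_self] at h1
    exact div_ne_zero (hab k) (hker k).1 h1.symm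
  · intro k
    rw [el_eq (by omega) 1 (by omega)]
    exact mir_one (by omega) hn h (ψ k) (hker k).1
  · intro i hi h2 h3 hB
    have := kummer_rel K p hn h hψ (fun k => (hker k).1) (fun k => (hker k).2.2) i hi h2 h3 hB
    rw [← this]
    refine Finset.sum_congr rfl fun k _ => ?_
    rw [el_eq (by omega) i (by omega)]
  · -- the logarithmic derivative at `1` of `∏ (b_k + a_k X)`
    have hG := hψ b a
    set G : ℤ[X] := nf K b a with hGd
    have hprod : DL 1 (∏ k, (C (ψ k b) + X * C (ψ k a)) ^ 1)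
        = ∑ k, ((1 : ℕ) : Ω) * DL 1 (C (ψ k b) + X * C (ψ k a)) := by
      apply DL_prod 1 le_rfl Finset.univ (fun k => C (ψ k b) + X * C (ψ k a)) (fun _ => 1)
      intro k _
      have := hab k
      simpa [add_comm] using this
    simp only [pow_one, Nat.cast_one, one_mul] at hprod
    have hterm : ∀ k, DL 1 (C (ψ k b) + X * C (ψ k a)) = 1 / (1 - -(ψ k b) / ψ k a) := by
      intro k
      rw [h1s k, DL]
      simp only [Nat.sub_self, Nm, th, pow_one]
      simp only [eval_mul, eval_X, one_mul, eval_add, eval_C, derivative_add, derivative_C,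
        derivative_mul, derivative_X, mul_zero, add_zero, zero_add]
      rw [one_div, inv_div, add_comm (ψ k b)]
    rw [← hG] at hprod
    have hev : ∀ F : ℤ[X], (F.map (Int.castRingHom Ω)).eval 1 = ((F.eval 1 : ℤ) : Ω) := by
      intro F
      rw [eval_map, eval₂_at_one]
      rfl
    have hx : DL 1 (G.map (Int.castRingHom Ω))
        = (((derivative G).eval 1 : ℤ) : Ω) / ((G.eval 1 : ℤ) : Ω) := by
      rw [DL]
      simp only [Nat.sub_self, Nm, th, pow_one]
      rw [derivative_map, eval_mul, eval_X, one_mul, hev, hev]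
    have hsum : ∑ k, 1 / (1 - -(ψ k b) / ψ k a)
        = (((derivative G).eval 1 : ℤ) : Ω) / ((G.eval 1 : ℤ) : Ω) := by
      rw [← hx, hprod]
      exact Finset.sum_congr rfl fun k _ => (hterm k).symm
    have hfr : (∑ k, 1 / (1 - -(ψ k b) / ψ k a)) ^ p = ∑ k, 1 / (1 - -(ψ k b) / ψ k a) := by
      rw [hsum, div_pow, int_pow, int_pow]
    have hfr2 : (∑ k, 1 / (1 - -(ψ k b) / ψ k a)) ^ p
        = ∑ k, 1 / (1 - (-(ψ k b) / ψ k a) ^ p) := by
      rw [sum_pow_char]
      refine Finset.sum_congr rfl fun k _ => ?_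
      rw [div_pow, one_pow, sub_pow_char, one_pow]
    rw [← hfr2, hfr]

end H10CQ
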