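import Pool.Agent.H45.KC.KDL
import Pool.Agent.H9.FC.PartI
import Pool.Agent.H9.FC.LocCM

/-!
# First case over fields of small degree: the relations of Kummer, index by index

`lg p m s = ∑_{0<k<p} s^k / k^m` in characteristic `p`, written as `∑_k k^(p-1-m) s^k` (`m < p - 1`).

* `DL_lin`: the `j`-th logarithmic derivative (`2 ≤ j`) of `α + β X` is `- (∑_k k^(j-1) s^k) / (1 - s^p)`,
  `s = - β / α`.
* `kummer_rel`: if `a^p + b^p + c^p = 0` in `𝓞 K`, no prime above `p` contains `a`, `b` or `c`, and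
  `ψ` is a reduction of the family of the embeddings of `K` in characteristic `p`, `s_i = - ψ_i b / ψ_i a`:
  `∑_i lg p m s_i / (1 - s_i^p) = 0` for every even `m`, `2 ≤ m ≤ p - 3`, with `p` not dividing the
  numerator of `B_m`.
* `mir_one`: `lg p 1 s_i = 0`.
-/

namespace Pool.Agent.H22.CQ

open Polynomial NumberField H9FC H45KC

/-- `∑_{0<k<p} k^(p-1-m) s^k`, which is `∑_{0<k<p} s^k / k^m` in characteristic `p` -/
noncomputable def lg {k : Type*} [Field k] (p m : ℕ) (s : k) : k :=
  ∑ i ∈ Finset.range p, (i : k) ^ (p - 1 - m) * s ^ i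

section
variable {k : Type*} [Field k]

private theorem th_add' (f g : k[X]) : th (f + g) = th f + th g := by
  simp [th, mul_add]

private theorem th_neg' (f : k[X]) : th (-f) = - th f := by
  simp [th]

private theorem th_C' (c : k) : th (C c) = 0 := by simp [th]

private theorem th_sum' {ι : Type*} (s : Finset ι) (f : ι → k[X]) :
    th (∑ i ∈ s, f i) = ∑ i ∈ s, th (f i) := by
  simp [th, Finset.mul_sum]

private theorem th_mono (c : k) (i : ℕ) : th (C c * X ^ i) = C ((i : k) * c) * X ^ i := by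
  rcases i with _ | i
  · simp [th]
  · rw [th, derivative_C_mul, derivative_X_pow]
    simp only [Nat.add_sub_cancel, C_mul, C_eq_natCast]
    ring

private theorem th_pow' (f : k[X]) (n : ℕ) :
    th (f ^ (n + 1)) = ((n + 1 : ℕ) : k[X]) * f ^ n * th f := by
  rw [th, derivative_pow, th, C_eq_natCast]
  simp only [Nat.add_sub_cancel]
  ring

/-- `∑_{1 ≤ i ≤ p} i^n s^i X^i` -/
private noncomputable def Sn (p n : ℕ) (s : k) : k[X] :=
  ∑ i ∈ Finset.Ioc 0 p, C ((i : k) ^ n * s ^ i) * X ^ i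

private theorem th_Sn (p n : ℕ) (s : k) : th (Sn p n s) = Sn p (n + 1) s := by
  rw [Sn, Sn, th_sum']
  refine Finset.sum_congr rfl fun i _ => ?_
  rw [th_mono]
  congr 2
  ring

private theorem geo (p : ℕ) (s : k) :
    (1 - C s * X) * Sn p 0 s = C s * X * (1 - C (s ^ p) * X ^ p) := by
  have h1 : Sn p 0 s = C s * X * ∑ i ∈ Finset.range p, (C s * X) ^ i := by
    rw [Sn, Finset.mul_sum]
    refine Finset.sum_nbij' (fun i => i - 1) (fun i => i + 1) ?_ ?_ ?_ ?_ ?_
    · intro i hi
      rw [Finset.mem_Ioc] at hi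
      rw [Finset.mem_range]
      omega
    · intro i hi
      rw [Finset.mem_range] at hi
      rw [Finset.mem_Ioc]
      omega
    · intro i hi
      rw [Finset.mem_Ioc] at hi
      omega
    · intro i _
      simp
    · intro i hi
      rw [Finset.mem_Ioc] at hi
      obtain ⟨n, rfl⟩ : ∃ n, i = n + 1 := ⟨i - 1, by omega⟩
      rw [pow_zero, one_mul, Nat.add_sub_cancel, mul_pow, ← C_pow, pow_succ s n, C_mul]
      ring
  have h2 := mul_neg_geom_sum (C s * X) p
  rw [h1]
  have h3 : (C s * X : k[X]) ^ p = C (s ^ p) * X ^ p := by rw [mul_pow, C_pow]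
  rw [← h3, ← h2]
  ring

private theorem Nm_lin (p : ℕ) [Fact p.Prime] [CharP k p] (α s : k) (n : ℕ) :
    (1 - C (s ^ p) * X ^ p) * Nm (C α * (1 - C s * X)) n
      = - ((C α * (1 - C s * X)) ^ (n + 1) * Sn p n s) := by
  have hW : th (1 - C (s ^ p) * X ^ p : k[X]) = 0 := by
    have h1 : (1 - C (s ^ p) * X ^ p : k[X]) = C 1 + -(C (s ^ p) * X ^ p) := by
      rw [C_1]
      ring
    rw [h1, th_add', th_C', th_neg', th_mono, CharP.cast_eq_zero]
    simp
  have hF : th (C α * (1 - C s * X) : k[X]) = - (C α * (C s * X)) := by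
    have h1 : (C α * (1 - C s * X) : k[X]) = C α + -(C (α * s) * X ^ 1) := by
      rw [C_mul]
      ring
    rw [h1, th_add', th_C', th_neg', th_mono, Nat.cast_one, one_mul, C_mul]
    ring
  induction n with
  | zero =>
    rw [Nm, hF, pow_one, mul_assoc, geo]
    ring
  | succ n ih =>
    set F : k[X] := C α * (1 - C s * X) with hFdef
    set W : k[X] := 1 - C (s ^ p) * X ^ p with hWdef
    have h1 : W * th (Nm F n) = th (W * Nm F n) := by
      rw [th_mul, hW]
      ring
    rw [Nm]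
    have h2 : W * (F * th (Nm F n) - ((n + 1 : ℕ) : k[X]) * Nm F n * th F)
        = F * (W * th (Nm F n)) - ((n + 1 : ℕ) : k[X]) * (W * Nm F n) * th F := by ring
    rw [h2, h1, ih, th_neg', th_mul, th_pow', th_Sn]
    ring

theorem DL_lin (p : ℕ) [Fact p.Prime] [CharP k p] (α β : k) (hα : α ≠ 0) (hαβ : α + β ≠ 0)
    (j : ℕ) (hj : 2 ≤ j) :
    DL j (C α + X * C β) = - (∑ i ∈ Finset.range p, (i : k) ^ (j - 1) * (-β / α) ^ i) /
      (1 - (-β / α) ^ p) := by
  have hp : p.Prime := Fact.out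
  set s : k := -β / α with hs
  have hβ : β = - (α * s) := by
    rw [hs]
    field_simp
  have hF : (C α + X * C β : k[X]) = C α * (1 - C s * X) := by
    rw [hβ, C_neg, C_mul]
    ring
  have hs1 : 1 - s ≠ 0 := by
    intro h0
    apply hαβ
    rw [hβ]
    linear_combination α * h0
  have hW1 : 1 - s ^ p = (1 - s) ^ p := by
    rw [sub_pow_char, one_pow]
  have hW0 : 1 - s ^ p ≠ 0 := by
    rw [hW1]
    exact pow_ne_zero _ hs1
  obtain ⟨n, rfl⟩ : ∃ n, j = n + 1 + 1 := ⟨j - 2, by omega⟩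
  have h1 := congrArg (eval 1) (Nm_lin p α s (n + 1))
  have hS : (Sn p (n + 1) s).eval 1 = ∑ i ∈ Finset.range p, (i : k) ^ (n + 1) * s ^ i := by
    rw [Sn, eval_finsetSum]
    simp only [eval_mul, eval_C, eval_pow, eval_X, one_pow, mul_one]
    have h2 : Finset.Ioc 0 p = insert p (Finset.Ioo 0 p) := by
      rw [Finset.Ioo_insert_right hp.pos]
    have h3 : Finset.range p = insert 0 (Finset.Ioo 0 p) := by
      ext x
      simp only [Finset.mem_range, Finset.mem_insert, Finset.mem_Ioo]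
      have := hp.pos
      omega
    rw [h2, h3, Finset.sum_insert (by simp), Finset.sum_insert (by simp), CharP.cast_eq_zero,
      Nat.cast_zero]
    simp
  rw [eval_mul, eval_neg, eval_mul, eval_pow, hS] at h1
  have hev : eval 1 (1 - C (s ^ p) * X ^ p : k[X]) = 1 - s ^ p := by simp
  rw [hev] at h1
  have hF1 : eval 1 (C α * (1 - C s * X) : k[X]) ≠ 0 := by
    simp only [eval_mul, eval_C, eval_sub, eval_one, eval_X, mul_one]
    exact mul_ne_zero hα hs1
  rw [DL, hF]
  simp only [Nat.add_sub_cancel]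
  rw [div_eq_div_iff (pow_ne_zero _ hF1) hW0]
  linear_combination h1

end

/-- in the first case, the relation of Kummer for the index `m` -/
theorem kummer_rel (K : Type*) [Field K] [NumberField K] (p : ℕ) [Fact p.Prime]
    (hd : Module.finrank ℚ K < p) {a b c : 𝓞 K} (h : FSol K p a b c)
    {Ω : Type*} [Field Ω] [CharP Ω p] {ψ : Fin (Module.finrank ℚ K) → (𝓞 K →+* Ω)}
    (hψ : IsRedFam ψ) (ha : ∀ i, ψ i a ≠ 0) (hc : ∀ i, ψ i c ≠ 0)
    (m : ℕ) (hm : Even m) (hm2 : 2 ≤ m) (hmp : m + 3 ≤ p)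
    (hB : ¬ (p : ℤ) ∣ (_root_.bernoulli m).num) :
    ∑ i, lg p m (-(ψ i b) / ψ i a) / (1 - (-(ψ i b) / ψ i a) ^ p) = 0 := by
  classical
  have hp : p.Prime := Fact.out
  have hp2 : p ≠ 2 := by omega
  have hpo : Odd p := hp.odd_of_ne_two hp2
  have : IsCyclotomicExtension {p} ℚ (CyclotomicField p ℚ) :=
    CyclotomicField.isCyclotomicExtension p ℚ
  obtain ⟨ζ, hζ⟩ : ∃ ζ : 𝓞 (CyclotomicField p ℚ), IsPrimitiveRoot ζ p :=
    ⟨(IsCyclotomicExtension.zeta_spec p ℚ (CyclotomicField p ℚ)).toInteger,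
      (IsCyclotomicExtension.zeta_spec p ℚ (CyclotomicField p ℚ)).toInteger_isPrimitiveRoot⟩
  have hI := (exists_pow_ideal K p hp2 hd a b c h (CyclotomicField p ℚ) hζ).2
  -- the sum in `Ω`
  have hab : ∀ i, ψ i a + ψ i b ≠ 0 := by
    intro i h0
    have h1 := fsol_hom h (ψ i)
    rw [h0, zero_add] at h1
    exact hc i h1
  -- the value at `1`
  have hmapΩ := hψ a b
  have hcast : (nf K a b).map (Int.castRingHom Ω)
      = ((nf K a b).map (Int.castRingHom (ZMod p))).map (ZMod.castHom dvd_rfl Ω) := by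
    rw [Polynomial.map_map]
    congr 1
    exact RingHom.ext_int _ _
  have hev : ((nf K a b).map (Int.castRingHom Ω)).eval 1 = (((nf K a b).eval 1 : ℤ) : Ω) := by
    rw [eval_map, eval₂_at_one]
    rfl
  have hP1 : ¬ (p : ℤ) ∣ (nf K a b).eval 1 := by
    intro h0
    rw [← CharP.intCast_eq_zero_iff Ω p] at h0
    rw [← hev, hmapΩ, eval_prod] at h0
    obtain ⟨i, -, hi⟩ := Finset.prod_eq_zero_iff.1 h0
    apply hab i
    simpa using hi
  have hj := kdl p (CyclotomicField p ℚ) hζ (nf K a b) (nf K a b) 0 (by rw [pow_zero, one_mul]) hP1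
    hI (p - m) (by
      rcases hpo with ⟨u, hu⟩
      rcases hm with ⟨v, hv⟩
      exact ⟨u - v, by omega⟩) (by omega) (by omega) (by
      have h1 : p - (p - m) = m := by omega
      rw [h1]
      exact hB)
  -- transfer to `Ω`
  have hDLmap : ∀ (G : (ZMod p)[X]) (n : ℕ),
      Nm (G.map (ZMod.castHom dvd_rfl Ω)) n = (Nm G n).map (ZMod.castHom dvd_rfl Ω) := by
    intro G n
    have hth : ∀ F : (ZMod p)[X], th (F.map (ZMod.castHom dvd_rfl Ω))
        = (th F).map (ZMod.castHom dvd_rfl Ω) := by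
      intro F
      rw [th, th, Polynomial.map_mul, map_X, derivative_map]
    induction n with
    | zero => rw [Nm, Nm, hth]
    | succ n ih =>
      rw [Nm, Nm, ih, hth, hth, Polynomial.map_sub, Polynomial.map_mul, Polynomial.map_mul,
        Polynomial.map_mul, Polynomial.map_natCast]
  have hDL : DL (p - m) ((nf K a b).map (Int.castRingHom Ω)) = 0 := by
    rw [hcast, DL, hDLmap]
    rw [DL, div_eq_zero_iff] at hj
    have h1 : eval 1 ((Nm ((nf K a b).map (Int.castRingHom (ZMod p))) (p - m - 1)).map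
        (ZMod.castHom dvd_rfl Ω)) = ZMod.castHom dvd_rfl Ω (eval 1 (Nm ((nf K a b).map
          (Int.castRingHom (ZMod p))) (p - m - 1))) := by
      rw [eval_map, eval₂_at_one]
    rcases hj with hj | hj
    · rw [h1, hj, map_zero, zero_div]
    · exfalso
      have h2 : eval 1 ((nf K a b).map (Int.castRingHom (ZMod p))) = 0 :=
        eq_zero_of_pow_eq_zero hj
      apply hP1
      rw [← CharP.intCast_eq_zero_iff (ZMod p) p]
      rw [← h2, eval_map, eval₂_at_one]
      rfl
  have hsum : DL (p - m) (∏ i, (C (ψ i a) + X * C (ψ i b)) ^ 1)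
      = ∑ i, ((1 : ℕ) : Ω) * DL (p - m) (C (ψ i a) + X * C (ψ i b)) := by
    apply DL_prod (p - m) (by omega) Finset.univ (fun i => C (ψ i a) + X * C (ψ i b)) (fun _ => 1)
    intro i _
    have := hab i
    simpa using this
  simp only [pow_one, Nat.cast_one, one_mul] at hsum
  rw [hmapΩ, hsum] at hDL
  have hterm : ∀ i, DL (p - m) (C (ψ i a) + X * C (ψ i b))
      = - (lg p m (-(ψ i b) / ψ i a) / (1 - (-(ψ i b) / ψ i a) ^ p)) := by
    intro i
    rw [DL_lin p (ψ i a) (ψ i b) (ha i) (hab i) (p - m) (by omega), lg, neg_div]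
    have h1 : p - m - 1 = p - 1 - m := by omega
    rw [h1]
  rw [Finset.sum_congr rfl (fun i _ => hterm i), Finset.sum_neg_distrib, neg_eq_zero] at hDL
  exact hDL

/-- Mirimanoff's first relation: `∑_{0<k<p} s^k / k = 0` -/
theorem mir_one {K : Type*} [Field K] [NumberField K] {p : ℕ} [Fact p.Prime] (hp2 : p ≠ 2)
    (hd : Module.finrank ℚ K < p) {a b c : 𝓞 K} (h : FSol K p a b c) {Ω : Type*} [Field Ω]
    [CharP Ω p] (ψ : 𝓞 K →+* Ω) (ha : ψ a ≠ 0) : lg p 1 (-(ψ b) / ψ a) = 0 := by
  classical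
  have hpp : p.Prime := Fact.out
  have hodd : Odd p := hpp.odd_of_ne_two hp2
  have hp3 : 3 ≤ p := by
    have := hpp.two_le
    omega
  -- the polynomial
  set E : ℤ[X] := ∑ k ∈ Finset.Ioo 0 p, C ((p.choose k / p : ℕ) : ℤ) * X ^ k with hE
  have hk : ∀ k ∈ Finset.Ioo 0 p, p * (p.choose k / p) = p.choose k := by
    intro k hk
    rw [Finset.mem_Ioo] at hk
    exact Nat.mul_div_cancel' (hpp.dvd_choose_self hk.1.ne' hk.2)
  have hE1 : C (p : ℤ) * E = (X + 1) ^ p - X ^ p - 1 := by
    have h1 : (X + 1 : ℤ[X]) ^ p = ∑ k ∈ Finset.range (p + 1), X ^ k * ((p.choose k : ℕ) : ℤ[X]) := by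
      rw [add_pow]
      refine Finset.sum_congr rfl fun k _ => ?_
      rw [one_pow, mul_one]
    have h2 : Finset.range (p + 1) = insert 0 (insert p (Finset.Ioo 0 p)) := by
      ext x
      simp only [Finset.mem_range, Finset.mem_insert, Finset.mem_Ioo]
      have := hpp.pos
      omega
    rw [h1, h2, Finset.sum_insert (by
      simp only [Finset.mem_insert, Finset.mem_Ioo, lt_irrefl, false_and, or_false]
      exact hpp.pos.ne), Finset.sum_insert (by simp), hE, Finset.mul_sum]
    simp only [pow_zero, Nat.choose_zero_right, Nat.cast_one, mul_one, Nat.choose_self]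
    have h3 : ∀ k ∈ Finset.Ioo 0 p, C (p : ℤ) * (C ((p.choose k / p : ℕ) : ℤ) * X ^ k)
        = X ^ k * ((p.choose k : ℕ) : ℤ[X]) := by
      intro k hk'
      rw [← mul_assoc, ← C_mul, ← Nat.cast_mul, hk k hk']
      rw [mul_comm]
      congr 1
    rw [Finset.sum_congr rfl h3]
    ring
  have h1 := loc_cm hp2 hd h ψ ha E hE1
  -- coefficients
  have hco : ∀ k ∈ Finset.Ioo 0 p, ((p.choose k / p : ℕ) : Ω) = - ((k : Ω) ^ (p - 1 - 1) * (-1) ^ k) := by
    intro k hk'
    have hkp := hk k hk'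
    rw [Finset.mem_Ioo] at hk'
    obtain ⟨n, rfl⟩ : ∃ n, k = n + 1 := ⟨k - 1, by omega⟩
    have e1 : (n + 1) * (p.choose (n + 1) / p) = (p - 1).choose n := by
      have e2 := Nat.add_one_mul_choose_eq (p - 1) n
      rw [Nat.sub_add_cancel hpp.one_le] at e2
      rw [← hkp] at e2
      have e3 : p * (p - 1).choose n = p * ((n + 1) * (p.choose (n + 1) / p)) := by
        rw [e2]
        ring
      exact (Nat.eq_of_mul_eq_mul_left hpp.pos e3).symm
    have e4 : (((p - 1).choose n : ℕ) : Ω) = (-1) ^ n := by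
      have e5 : ∀ n : ℕ, n < p → (((p - 1).choose n : ℕ) : Ω) = (-1) ^ n := by
        intro n
        induction n with
        | zero => simp
        | succ n ih =>
          intro hn
          have e6 := Nat.choose_succ_succ (p - 1) n
          have e7 : p - 1 + 1 = p := Nat.sub_add_cancel hpp.one_le
          have e8 : p.choose (n + 1) = (p - 1).choose n + (p - 1).choose (n + 1) := by
            conv_lhs => rw [← e7]
            exact e6
          have e9 : ((p.choose (n + 1) : ℕ) : Ω) = 0 := by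
            rw [CharP.cast_eq_zero_iff Ω p]
            exact hpp.dvd_choose_self (by omega) hn
          rw [e8, Nat.cast_add, ih (by omega)] at e9
          rw [pow_succ]
          linear_combination e9
      exact e5 n (by omega)
    have hk0 : ((n + 1 : ℕ) : Ω) ≠ 0 := by
      rw [Ne, CharP.cast_eq_zero_iff Ω p]
      intro hdv
      have := Nat.le_of_dvd (by omega) hdv
      omega
    have e10 : ((n + 1 : ℕ) : Ω) ^ (p - 1) = 1 := by
      have e11 : ((n + 1 : ℕ) : ZMod p) ^ (p - 1) = 1 := by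
        apply ZMod.pow_card_sub_one_eq_one
        rw [Ne, ZMod.natCast_eq_zero_iff]
        intro hdv
        have := Nat.le_of_dvd (by omega) hdv
        omega
      have e12 := congrArg (ZMod.castHom dvd_rfl Ω) e11
      rw [map_pow, map_natCast, map_one] at e12
      exact e12
    have e13 : ((n + 1 : ℕ) : Ω) ^ (p - 1) = (n + 1 : ℕ) * ((n + 1 : ℕ) : Ω) ^ (p - 1 - 1) := by
      rw [← pow_succ']
      congr 1
      omega
    have e14 : ((n + 1 : ℕ) : Ω) * ((p.choose (n + 1) / p : ℕ) : Ω) = (-1) ^ n := by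
      rw [← e4, ← e1]
      push_cast
      ring
    apply mul_left_cancel₀ hk0
    rw [e14]
    have e15 : ((n + 1 : ℕ) : Ω) * -(((n + 1 : ℕ) : Ω) ^ (p - 1 - 1) * (-1) ^ (n + 1))
        = (((n + 1 : ℕ) : Ω) ^ (p - 1)) * (-1) ^ n := by
      rw [e13]
      ring
    rw [e15, e10, one_mul]
  have h2 : aeval (ψ b / ψ a) E = - lg p 1 (-(ψ b) / ψ a) := by
    rw [hE, map_sum, lg]
    have h3 : Finset.range p = insert 0 (Finset.Ioo 0 p) := by
      ext x
      simp only [Finset.mem_range, Finset.mem_insert, Finset.mem_Ioo]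
      have := hpp.pos
      omega
    rw [h3, Finset.sum_insert (by simp), Nat.cast_zero, zero_pow (by omega), zero_mul, zero_add,
      ← Finset.sum_neg_distrib]
    refine Finset.sum_congr rfl fun k hk' => ?_
    rw [map_mul, map_pow, aeval_X, aeval_C]
    have h4 : algebraMap ℤ Ω ((p.choose k / p : ℕ) : ℤ) = ((p.choose k / p : ℕ) : Ω) := by
      rw [eq_intCast, Int.cast_natCast]
    rw [h4, hco k hk', neg_div, neg_pow (ψ b / ψ a)]
    ring
  rw [h2, neg_eq_zero] at h1
  exact h1

end Pool.Agent.H22.CQ
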